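import Pool.Agent.Helper53.CTR.Goals

/-!
# Packet CTR-DST
-/

namespace Pool.Agent.Helper59.CTR

open Pool.Agent.Helper53.CTR
open Finset

theorem gDST : GoalDST := by
  intro hE q x n
  induction n generalizing x with
  | zero =>
    intro τ j hτ
    have h0 : τ = 0 := by simpa using hτ
    subst h0
    refine ⟨by simp [dep], ?_, ?_⟩
    · intro h
      simp at h
    · intro _
      simp [dep, des]
  | succ n ih =>
    intro τ j hτ
    have hP : 0 < 9 ^ n := by positivity
    have hr : τ % 9 ^ n < 9 ^ n := Nat.mod_lt _ hP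
    have hdm : 9 ^ n * (τ / 9 ^ n) + τ % 9 ^ n = τ := Nat.div_add_mod τ (9 ^ n)
    have hd0 : ∀ d, dep q (sub q x n d) n 0 j = 0 := fun d => (ih (sub q x n d) 0 j hP).1
    have hpow : 9 ^ (n + 1) = 9 ^ n * 9 := by rw [pow_succ]
    obtain ⟨-, h2, h3⟩ := ih (sub q x n (τ / 9 ^ n)) (τ % 9 ^ n) j hr
    refine ⟨?_, ?_, ?_⟩
    · simp [dep, hd0]
    · intro h
      by_cases hc : τ % 9 ^ n + 1 < 9 ^ n
      · have e1 : (τ + 1) / 9 ^ n = τ / 9 ^ n := by
          have : τ + 1 = 9 ^ n * (τ / 9 ^ n) + (τ % 9 ^ n + 1) := by omega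
          rw [this, Nat.mul_add_div hP, Nat.div_eq_of_lt hc, Nat.add_zero]
        have e2 : (τ + 1) % 9 ^ n = τ % 9 ^ n + 1 := by
          have : τ + 1 = 9 ^ n * (τ / 9 ^ n) + (τ % 9 ^ n + 1) := by omega
          rw [this, Nat.mul_add_mod, Nat.mod_eq_of_lt hc]
        simp only [dep, des, e1, e2]
        rw [h2 hc]
        ring
      · have hc' : τ % 9 ^ n + 1 = 9 ^ n := by omega
        have hm : τ + 1 = 9 ^ n * (τ / 9 ^ n + 1) := by
          rw [Nat.mul_add, Nat.mul_one]
          omega
        have e1 : (τ + 1) / 9 ^ n = τ / 9 ^ n + 1 := by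
          rw [hm, Nat.mul_div_cancel_left _ hP]
        have e2 : (τ + 1) % 9 ^ n = 0 := by
          rw [hm, Nat.mul_mod_right]
        simp only [dep, des, e1, e2]
        rw [Finset.sum_range_succ, hd0]
        have := h3 hc'
        linarith
    · intro h
      have hlast : τ / 9 ^ n = 8 ∧ τ % 9 ^ n + 1 = 9 ^ n := by
        have h9 : τ / 9 ^ n < 9 := by
          rw [Nat.div_lt_iff_lt_mul hP]
          rw [hpow] at hτ
          nlinarith
        have h8 : 8 ≤ τ / 9 ^ n := by
          rw [Nat.le_div_iff_mul_le hP]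
          rw [hpow] at h
          omega
        have h8' : τ / 9 ^ n = 8 := by omega
        refine ⟨h8', ?_⟩
        rw [h8'] at hdm
        rw [hpow] at h
        omega
      have h4 := h3 hlast.2
      simp only [dep, des]
      rw [hlast.1] at h4 ⊢
      rw [add_assoc, h4, ← Finset.sum_range_succ (fun d => eff (sub q x n d) j)]
      exact hE q x n j

end Pool.Agent.Helper59.CTR
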